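import Mathlib
import Pool.Agent.Q63.FT.Fin
import Pool.Agent.Q63.FJ.TMain

/-!
# The Tate conjecture in codimension `c` for all abelian varieties of Fermat type over finite fields

Let `m` be prime to `p`, `C` the Fermat curve of degree `m` in characteristic `p`, `J` its Jacobian, and let `A`
be any abelian variety over the algebraic closure of the field with `p` elements which is isogenous to an abelian subvariety
of a power of `J` (of any dimension). `H^{2c}(J^N)` is a direct sum of direct summands of `H^1(C)^{⊗ 2c}`, by algebraic
correspondences.

`H^1(C)` splits into lines with the characters `(a, b, c)` of nonzero residues modulo `m` with sum zero; the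
eigenvalues of Frobenius are Jacobi sums. By Stickelberger's theorem the Tate classes in `H^1(C)^{⊗ 2c}` are spanned
by the lines of the families `α i`, `i < 2c`, with `IsTateTensor`. By the inductive structure of Shioda and
Katsura the motive of `H^1(C)^{⊗ 2c}`, twisted, is a direct summand of the motive of the Fermat variety of degree `m` and
dimension `6c - 2`; the line of `α` corresponds to the line with the character `conc α`. It is algebraic if
`conc α` is generated, in some degree `N m`, by pairs, Tate characters with four entries (Tate's theorem on
divisors on products of curves) and standard characters (Aoki).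

The theorem: this is always so if the order `f` of `p` modulo `m` is odd and
* `4 * f * (6c + k) < (q - 1) * (r - 1)` for all distinct odd primes `q`, `r` dividing `m`, where `k ≤ 6c`
  is the number of the residues whose additive order is `2` modulo `4`, and
* if `4` divides `m`, then `2 f` times the number of the residues of order divisible by `4` is less than
  `q - 1` for every odd prime `q` dividing `m`.

So the Tate conjecture holds in codimension `c` for all abelian varieties of Fermat type of degree `m`, for odd `m` if
`f` is odd and `24 f c < (q - 1) * (r - 1)`, with `q < r` the two smallest primes of `m`.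
-/

set_option autoImplicit false

namespace Pool.Agent.Results.MP_ee618e_ag.FermatJacobians

open Pool.Agent.H916T Pool.Agent.Q63.FJ

theorem result (p m : ℕ) (hp : p.Prime) (hm : 0 < m) (hpm : p.Coprime m)
    (hf : Odd (orderOf (p : ZMod m))) (c : ℕ) (hc : 0 < c) (α : Fin (2 * c) → Fin 3 → ZMod m)
    (hα : IsTateTensor p m α)
    (h2 : ∀ q r : ℕ, q.Prime → r.Prime → q ≠ 2 → r ≠ 2 → q ≠ r → q ∣ m → r ∣ m →
      4 * (orderOf (p : ZMod m) *
        (6 * c + Multiset.card ((conc α).filter fun a => addOrderOf a % 4 = 2))) <
        (q - 1) * (r - 1))
    (h4 : 4 ∣ m → ∀ q : ℕ, q.Prime → q ≠ 2 → q ∣ m →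
      2 * (orderOf (p : ZMod m) *
        Multiset.card ((conc α).filter fun a => 4 ∣ addOrderOf a)) < q - 1) :
    ∃ N : ℕ, 0 < N ∧ p.Coprime N ∧
      Generated (N * m)
        (fun t => SurfaceTate p (N * m) t ∨ ∃ q : ℕ, q.Prime ∧ q ∣ N * m ∧ Standard q (N * m) t)
        ((conc α).map fun a => ((N * a.val : ℕ) : ZMod (N * m))) := by
  have : NeZero m := ⟨hm.ne'⟩
  have hcard : Multiset.card (conc α) = 6 * c := by rw [card_conc]; ring
  obtain ⟨N, hN, hpN, H⟩ := Pool.Agent.Q63.FT.tate_of_small hp hm hpm hf (conc α)
    (isTate_conc hpm hα) (by
      intro h0
      rw [h0, Multiset.card_zero] at hcard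
      omega) (by rw [hcard]; exact h2) h4
  exact ⟨N, hN, hpN, H (N * m) rfl⟩

end Pool.Agent.Results.MP_ee618e_ag.FermatJacobians
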