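import Pool.Agent.Q137.UO.AV

/-!
# The Tate conjecture for abelian varieties over finite fields, and cubic hypersurfaces over `𝔽_p`

Let `p` be a prime number. For a finite set `H` of triples `(i, j, l)` with `1 ≤ i ≤ a` let `X_H` be the
smooth affine cubic hypersurface `∑_{(i, j, l) ∈ H} x_i y_j z_l = 1` over `𝔽_p`.

**Theorem.** (1) For every `H` and every `n` there is an abelian variety `A_{H,n}` over `𝔽_p` such that
`h^1(A_{H,n})` is the part of weight `2a - 1` of `H^n_c(X_H)`, twisted by `a - 1`.

(2) Every abelian variety over `𝔽_p` is, up to isogeny, a direct factor of a finite product of abelian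
varieties `A_{H,n}`. (Hence every abelian variety over a finite field `K` of characteristic `p` is, up to
isogeny, a direct factor of a finite product of abelian varieties `(A_{H,n})_K`, by restriction of scalars.)

(3) For every prime `ℓ ≠ p` and every `i` the Tate conjecture in degree `i` is true for all abelian varieties
over all finite fields of characteristic `p` if and only if it is true for all finite products of the
abelian varieties `A_{H,n}` over `𝔽_p`.

Here `M` is the category of motives over `𝔽_p` for numerical equivalence with rational coefficients. It is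
a semisimple abelian category (Jannsen), graded by the weights (the Künneth projectors are algebraic by
Katz and Messing), with Tate twists `P ↦ P(t)`. For a separated scheme `X` of finite type over `𝔽_p` let
`D.H N n X` be the part of weight `1 + 2N` of `H^n_c(X)`, that is, the cohomology in degree `n - 1 - 2N` of
the weight `1 + 2N` part of the weight complex of `X` (Gillet, Soulé, Bondarko); for smooth projective `X`
it is `h^n(X)` if `n = 1 + 2N`, and zero otherwise. For an abelian variety `A` over `𝔽_p` let `h1 A` be its
motive `h^1(A)`; `h1` is a fully faithful contravariant functor on the category of abelian varieties over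
`𝔽_p` up to isogeny. So `h1 A` is a direct factor of `h1 B` if and only if `A` is, up to isogeny, a direct
factor of `B`, and `OfGraphs1 D h1 A` says that `A` is isogenous to a finite product of abelian varieties
`A_{H,n}`.

`Describes` lists the known facts that are used: the standard properties of the motives and of the
cohomology with compact supports (`IsWMotives`), the relation between abelian varieties and motives of
weight one (`IsAV`), and two facts on the Tate conjecture. If it is true in degree `i` for `B` then it is
true for every direct factor of `B` up to isogeny (restrict cycles to the factor); and for an abelian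
variety `A` over a finite field `K` of characteristic `p` it follows from the Tate conjecture for the abelian
variety over `𝔽_p` that is obtained from `A` by restriction of scalars, as Tate classes and algebraic
classes are not changed by finite extensions of the base field.
-/

set_option autoImplicit false

open CategoryTheory CategoryTheory.Limits AlgebraicGeometry Pool.Agent.Y116.UV Pool.Agent.Z125.UN
  Pool.Agent.Q193.LT Pool.Agent.Q49.WU Pool.Agent.Q137.UO

universe v u w w'

namespace Pool.Agent.Results.MP_ee618e_ag.HypergraphAbelianVarieties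

/-- Abelian varieties over the finite fields of characteristic `p`, and their classes. -/
structure Classes (p : ℕ) where
  /-- the abelian varieties over `K` -/
  AV : ∀ (K : Type) [Field K] [Finite K] [CharP K p], Type w
  /-- the cohomology `V^i` of `A`, for the prime `ℓ` -/
  V : ∀ (K : Type) [Field K] [Finite K] [CharP K p] (_ : AV K) (ℓ : ℕ) [Fact ℓ.Prime] (_ : ℕ),
    ModuleCat.{w'} ℚ_[ℓ]
  /-- the Tate classes -/
  tate : ∀ (K : Type) [Field K] [Finite K] [CharP K p] (A : AV K) (ℓ : ℕ) [Fact ℓ.Prime] (i : ℕ),
    Submodule ℚ_[ℓ] (V K A ℓ i)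
  /-- the span of the algebraic classes -/
  alg : ∀ (K : Type) [Field K] [Finite K] [CharP K p] (A : AV K) (ℓ : ℕ) [Fact ℓ.Prime] (i : ℕ),
    Submodule ℚ_[ℓ] (V K A ℓ i)

/-- The Tate conjecture in degree `i` for `A`. -/
def TateFor {p : ℕ} (C : Classes.{w, w'} p) (ℓ : ℕ) [Fact ℓ.Prime] (i : ℕ) (K : Type) [Field K]
    [Finite K] [CharP K p] (A : C.AV K) : Prop :=
  C.tate K A ℓ i ≤ C.alg K A ℓ i

/-- The known facts that are used. -/
structure Describes {p : ℕ} [Fact p.Prime] {M : Type u} [Category.{v} M] [Abelian M]
    (C : Classes.{w, w'} p) (D : WeightData (ZMod p) M) (h1 : C.AV (ZMod p) → M) : Prop where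
  motives : IsWMotives D
  varieties : IsAV D h1
  factor : ∀ (ℓ : ℕ) [Fact ℓ.Prime] (i : ℕ) (A B : C.AV (ZMod p)), ℓ ≠ p →
    IsFactor (h1 A) (h1 B) → TateFor C ℓ i (ZMod p) B → TateFor C ℓ i (ZMod p) A
  restriction : ∀ (K : Type) [Field K] [Finite K] [CharP K p] (A : C.AV K), ∃ B : C.AV (ZMod p),
    ∀ (ℓ : ℕ) [Fact ℓ.Prime] (i : ℕ), ℓ ≠ p → TateFor C ℓ i (ZMod p) B → TateFor C ℓ i K A

/-- **The Tate conjecture for abelian varieties over finite fields.** See the explanations above. -/
theorem result {p : ℕ} [Fact p.Prime] {M : Type u} [Category.{v} M] [Abelian M]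
    {C : Classes.{w, w'} p} {D : WeightData (ZMod p) M} {h1 : C.AV (ZMod p) → M}
    (h : Describes C D h1) :
    (∀ (a b c : ℕ) (H : Finset (Fin a × Fin b × Fin c)) (n : ℤ),
      ∃ A, Nonempty (h1 A ≅ graphObj D H n)) ∧
    (∀ A : C.AV (ZMod p), ∃ B, OfGraphs1 D h1 B ∧ IsFactor (h1 A) (h1 B)) ∧
    ∀ (ℓ : ℕ) [Fact ℓ.Prime] (i : ℕ), ℓ ≠ p →
      ((∀ (K : Type) [Field K] [Finite K] [CharP K p] (A : C.AV K), TateFor C ℓ i K A) ↔
        ∀ B : C.AV (ZMod p), OfGraphs1 D h1 B → TateFor C ℓ i (ZMod p) B) := by
  have hF : Frac (ZMod p) := frac_of_surj ZMod.intCast_surjective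
  refine ⟨fun a b c H n => graph_av h.motives h.varieties hF H n,
    fun A => factor_graphs h.motives h.varieties hF A, fun ℓ _ i hℓ => ⟨?_, ?_⟩⟩
  · exact fun g B _ => g (ZMod p) B
  · intro g K _ _ _ A
    obtain ⟨A', hA'⟩ := h.restriction K A
    obtain ⟨B, hB, hAB⟩ := factor_graphs h.motives h.varieties hF A'
    exact hA' ℓ i hℓ (h.factor ℓ i A' B hℓ hAB (g B hB))

end Pool.Agent.Results.MP_ee618e_ag.HypergraphAbelianVarieties
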