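import Mathlib
import Pool.Agent.Q306.TP.Large

/-!
# The Tate conjecture for products of abelian varieties of prime dimensions over finite fields

Over an algebraic closure of the field with `p` elements each abelian variety is isogenous to the
reduction of an abelian variety of CM type (Honda, Tate). So an abelian variety over the field with
`p ^ a` elements is modelled by `RedAV`: a finite product of CM types `(E i, Φ i)` with Weil numbers
`π i ∈ E i` that satisfy the formula of Shimura and Taniyama; its cohomology of degree `n`, with
coefficients in an algebraically closed field `Ω`, consists of the alternating `n`-forms on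
`Ω ⊗ H_1`, on which the Frobenius endomorphism acts by `π`. The dimension of the factor `i` is half of
the degree of the CM field `E i`. The factor is supersingular (`IsSupersingular`) if
`π i ^ (2 * s) = p ^ (a * s)` for some `s > 0`.

For an abelian variety `Z` we say that the Tate conjecture holds for the products of the factors of `Z`
(`TateForProducts Z`) if for all abelian varieties `Y` that are isogenous, over the algebraic closure,
to a product of powers of the factors of `Z` and of a supersingular abelian variety of any dimension
(`IsPowersTimesSupersingular`), in all degrees `2 m` and over all finite extensions of the ground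
field, the Tate classes are in the system of classes `AlgS Ω {4, 6} Y`. These classes are algebraic:
it is the system that is generated, by linear combinations, cup products, pull-backs and
push-forwards, by the Tate classes of degree two (Tate), the reductions of split Weil classes of
imaginary quadratic fields on abelian fourfolds and sixfolds of CM type (Markman), and the reductions
of Hodge classes of degree four on products of elliptic curves and abelian surfaces of CM type
(Ramón Marí). The last two kinds are only needed for the small factors.

**First part** (prime dimensions, `PrimeDimensional`). Suppose that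

* the factors of `Z` have dimension one, two, or an odd prime number;
* the factors of dimension at least three are not supersingular and their CM fields have pairwise
  different Galois closures;
* no imaginary quadratic field is contained in the CM field of a factor of dimension at least three
  and in the CM field of another factor (`CommonImaginary`);
* `p` splits in the imaginary quadratic subfields of the CM fields of the factors of dimension at
  least seven (so this is no condition if there are no such subfields, the generic case).

Then the Tate conjecture holds for the products of the factors of `Z`. For example, `Y` may be a product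
of arbitrary elliptic curves and abelian surfaces and of powers of one simple abelian variety `A g`
for each odd prime number `g`, of dimension `g`, whose CM fields contain no imaginary quadratic
fields (fields `E` of degree `2 g` for different `g ≥ 3` have different Galois closures).

**Second part** (large factors, `LargeAndGood`). Let `S` be a set of factors of `Z` that are not supersingular, with
CM fields with pairwise different Galois closures, and such that for each factor `i` in `S`

* the functions `f` on the complex embeddings of its CM field with `f (conj φ) = - f φ` are an
  irreducible rational representation of the group of the automorphisms of `ℂ` (`OddIrreducible`), or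
* its dimension is an odd prime number, its CM field has no imaginary quadratic subfield in common with
  the CM field of another factor of `Z`, and, if the dimension is at least seven, `π i` satisfies no
  Weil relation (`NoWeilRelation`: for the norm `N` to an imaginary quadratic subfield
  `N (π i) ^ 2` is not `q ^ g` times a root of unity; if such a relation holds there are exceptional
  Tate classes on powers of the factor, of which it is not known that they are algebraic).

Suppose that the other factors of `Z` have smaller dimension than all factors in `S` and are a good
set (`IsGoodSetS`: the sum of their dimensions is at most five, and no two of them form an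
exceptional pair; or all of them have dimension at most three, and those of dimension three with the
same Galois closure are isogenous, or have CM fields that are Galois over `ℚ`, or one of them is
supersingular). Then the Tate conjecture holds for the products of the factors of `Z`.

**Third part** (blocks, `UnrelatedBlocks`). Let the factors of `Z` be divided into blocks, numbered by `c`. Suppose that for
`c k < c i` all conjugates of `π k` are unrelated to `E i` (`UnrelatedTo`: a function `f` on the complex
embeddings of `E i` with `f (conj φ) = - f φ` which is invariant under all automorphisms of `ℂ` that
fix some power of the number is zero), and that each block is a good set, or has maximal angle rank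
(`HasMaximalAngleRank`: the only multiplicative relations between its Frobenius eigenvalues are those of
complex conjugate pairs). Then the Tate conjecture holds for the products of the factors of `Z`. This
is not symmetric: nothing is assumed on the relation of the numbers `π i` to the fields `E k` for
`c k < c i`, and nothing on the CM fields in the blocks of maximal angle rank.

**Fourth part** (criteria). For a CM field `K` of degree `2 g`, `g` an odd prime number, the odd
functions are irreducible if `K` contains no imaginary quadratic field. If the dimension of the factor
`i` is odd and `p` splits in all imaginary quadratic subfields of its CM field then it satisfies no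
Weil relation.

Relation to other results. Tankeev proved that the Tate classes on a simple abelian variety of prime
dimension are generated by divisors; the case of products is different. The results of the starting files
(`ElementaryRelations`, which is used here, `SurfacesAndDimensionFive`, `AllCMFields`,
`AlmostAllSlopeTypes`, `OrdinaryIndependentBlocks`, `IndependentDiscriminants`) treat small factors,
almost all CM types, or blocks with linearly disjoint Galois closures up to totally real fields;
`SeveralTypesPerField` (helper70) treats fields with absolutely irreducible odd functions, without
unrelated numbers for reducible ones and without criteria for the irreducibility; its main point are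
several factors with the same field.

The proof. A relation between the Frobenius eigenvalues of `Z` has for each block of factors an odd part,
a function on the embeddings. A power of the product of the eigenvalues of the lower blocks
is a product of numbers `y l`, each unrelated to the fields of the block. Averaging over the
stabilizers of the `y l` successively one sees that the odd part is in the space spanned by the odd
relations of the block alone. For a CM field of degree `2 g`, `g` an odd prime number, some
automorphism of order `g` acts without fixed points on the embeddings; so a stable space of odd
functions is zero, everything, the line spanned by a quadratic character, or the orthogonal space of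
this line. The automorphisms of `g`-power order act trivially on the embeddings of CM fields of smaller
degree.
-/

set_option autoImplicit false

namespace Pool.Agent.Results.MP_ee618e_ag.PrimeDimensions

open NumberField Module Pool.Agent.TH117.BL Pool.Agent.W495.TA Pool.Agent.W495.TC
  Pool.Agent.W547.KB Pool.Agent.Y137.SF Pool.Agent.Y137.MV Pool.Agent.Y1.CT Pool.Agent.Q306.TP

/-- The Tate conjecture for all abelian varieties `Y` which are products of powers of the factors of `Z`
and of supersingular abelian varieties. -/
def TateForProducts {p : ℕ} [Fact p.Prime] {ν : PadicAlgCl p ≃+* ℂ} (Z : RedAV p ν) : Prop :=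
  ∀ (Ω : Type) [Field Ω] [CharZero Ω] [IsAlgClosed Ω] (Y : RedAV p ν),
    IsPowersTimesSupersingular Z Y →
    ∀ (s m : ℕ) (f : (TM Ω Y) [⋀^Fin (2 * m)]→ₗ[Ω] Ω), 0 < s → IsTateClass Ω Y s m f →
      AlgS Ω {4, 6} Y (Fin (2 * m)) f

theorem tate_of {p : ℕ} [Fact p.Prime] {ν : PadicAlgCl p ≃+* ℂ} (Z : RedAV p ν)
    (h : HasElementaryRelationsS Z) : TateForProducts Z :=
  fun Ω _ _ _ Y hY s m f hs hf => elementaryS Z h Ω Y hY s m hs f hf

/-- Different Galois closures of the CM fields of the factors in `S`. -/
def DifferentClosures {p : ℕ} [Fact p.Prime] {ν : PadicAlgCl p ≃+* ℂ} (Z : RedAV p ν)
    (S : Set Z.X.I) : Prop :=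
  ∀ i ∈ S, ∀ k ∈ S, IntermediateField.normalClosure ℚ (Z.X.factor i).E ℂ =
    IntermediateField.normalClosure ℚ (Z.X.factor k).E ℂ → i = k

open Classical in
/-- The only multiplicative relations between the Frobenius eigenvalues of the factors in `P` and `q` are
those of complex conjugate pairs. -/
def HasMaximalAngleRank {p : ℕ} [Fact p.Prime] {ν : PadicAlgCl p ≃+* ℂ} (Z : RedAV p ν)
    (P : Set Z.X.I) : Prop :=
  MaximalAngleRank (p ^ Z.a) (fun i : {i // i ∈ P} => Z.π i.1)

/-- The prime number `p` splits in all imaginary quadratic subfields of `E`. -/
def SplitsInImaginary (p : ℕ) [Fact p.Prime] (E : Type) [Field E] : Prop :=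
  ∀ (x : E) (n : ℕ), 0 < n → x ^ 2 = -(n : E) → ∃ r : ℚ_[p], r ^ 2 = -(n : ℚ_[p])

/-- The factor has odd prime dimension, and its CM field has no imaginary quadratic subfield in common
with the CM field of another factor. -/
def IsPrimeFactor {p : ℕ} [Fact p.Prime] {ν : PadicAlgCl p ≃+* ℂ} (Z : RedAV p ν) (i : Z.X.I) :
    Prop :=
  (∃ g : ℕ, g.Prime ∧ g ≠ 2 ∧ finrank ℚ (Z.X.factor i).E = 2 * g) ∧
    ∀ k, k ≠ i → ¬ CommonImaginary (Z.X.factor i).E (Z.X.factor k).E

/-- The hypotheses of the first part. -/
structure PrimeDimensional {p : ℕ} [Fact p.Prime] {ν : PadicAlgCl p ≃+* ℂ} (Z : RedAV p ν) :
    Prop where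
  /-- the factors which are not elliptic curves or surfaces have prime dimension and no imaginary
  quadratic subfields in common with other factors -/
  prime : ∀ i, 4 < finrank ℚ (Z.X.factor i).E → IsPrimeFactor Z i
  /-- they are not supersingular -/
  ns : ∀ i, 4 < finrank ℚ (Z.X.factor i).E → ¬ IsSupersingular Z i
  /-- the Galois closures are different -/
  closures : DifferentClosures Z {i | 4 < finrank ℚ (Z.X.factor i).E}
  /-- `p` splits in the imaginary quadratic subfields, in dimension at least seven -/
  split : ∀ i, 10 < finrank ℚ (Z.X.factor i).E → SplitsInImaginary p (Z.X.factor i).E

/-- The hypotheses of the second part. -/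
structure LargeAndGood {p : ℕ} [Fact p.Prime] {ν : PadicAlgCl p ≃+* ℂ} (Z : RedAV p ν)
    (S : Set Z.X.I) : Prop where
  /-- the large factors are not supersingular -/
  ns : ∀ i ∈ S, ¬ IsSupersingular Z i
  /-- their Galois closures are different -/
  closures : DifferentClosures Z S
  /-- irreducible odd functions, or prime dimension and no Weil relation -/
  large : ∀ i ∈ S, OddIrreducible (Z.X.factor i).E ∨
    (IsPrimeFactor Z i ∧ (10 < finrank ℚ (Z.X.factor i).E → NoWeilRelation Z i))
  /-- the other factors are smaller -/
  smaller : ∀ i ∈ S, ∀ k ∉ S, finrank ℚ (Z.X.factor k).E < finrank ℚ (Z.X.factor i).E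
  /-- the other factors are a good set -/
  good : IsGoodSetS Z Sᶜ

/-- The hypotheses of the third part. -/
structure UnrelatedBlocks {p : ℕ} [Fact p.Prime] {ν : PadicAlgCl p ≃+* ℂ} (Z : RedAV p ν)
    (c : Z.X.I → ℕ) : Prop where
  /-- the Frobenius eigenvalues of the lower blocks are unrelated to the fields of the higher ones -/
  unrelated : ∀ i k, c k < c i → ∀ φ : (Z.X.factor k).E →+* ℂ,
    UnrelatedTo (Z.X.factor i).E (φ (Z.π k))
  /-- the blocks are good sets or have maximal angle rank -/
  blocks : ∀ b, IsGoodSetS Z {i | c i = b} ∨ HasMaximalAngleRank Z {i | c i = b}

/-- **The Tate conjecture for products of abelian varieties of prime dimensions over finite fields.** -/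
theorem result :
    -- prime dimensions
    (∀ (p : ℕ) [Fact p.Prime] (ν : PadicAlgCl p ≃+* ℂ) (Z : RedAV p ν),
      PrimeDimensional Z → TateForProducts Z) ∧
    -- large factors
    (∀ (p : ℕ) [Fact p.Prime] (ν : PadicAlgCl p ≃+* ℂ) (Z : RedAV p ν) (S : Set Z.X.I),
      LargeAndGood Z S → TateForProducts Z) ∧
    -- blocks
    (∀ (p : ℕ) [Fact p.Prime] (ν : PadicAlgCl p ≃+* ℂ) (Z : RedAV p ν) (c : Z.X.I → ℕ),
      UnrelatedBlocks Z c → TateForProducts Z) ∧
    -- criteria
    (∀ (K : Type) [Field K] [NumberField K] [IsCMField K] (g : ℕ), g.Prime → g ≠ 2 →
      finrank ℚ K = 2 * g → (∀ (x : K) (n : ℕ), 0 < n → x ^ 2 ≠ -(n : K)) → OddIrreducible K) ∧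
    (∀ (p : ℕ) [Fact p.Prime] (ν : PadicAlgCl p ≃+* ℂ) (Z : RedAV p ν) (i : Z.X.I) (g : ℕ),
      g % 2 = 1 → finrank ℚ (Z.X.factor i).E = 2 * g → SplitsInImaginary p (Z.X.factor i).E →
        NoWeilRelation Z i) := by
  refine ⟨fun p _ ν Z h => ?_, fun p _ ν Z S h => ?_,
    fun p _ ν Z c h => ?_, fun K _ _ _ g hg hodd hK h => oddIrreducible_of_prime hg hodd hK h,
    fun p _ ν Z i g hodd hK h => noWeil_of_split Z i hodd hK h⟩
  · refine tate_of Z (elementary_of_large Z {i | 4 < finrank ℚ (Z.X.factor i).E} (fun i hi => ?_)
      h.closures (fun i hi k hk => ?_) (generated_of_good Z _ (Or.inl ⟨fun i hi => ?_, ?_⟩)))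
    · refine ⟨h.ns i hi, Or.inr ⟨(h.prime i hi).1, fun h10 => ?_, (h.prime i hi).2⟩⟩
      obtain ⟨g, hg, hodd, hK⟩ := (h.prime i hi).1
      exact noWeil_of_split Z i (hg.eq_two_or_odd.resolve_left hodd) hK (h.split i h10)
    · exact lt_of_le_of_lt (not_lt.1 hk) hi
    · have h1 : finrank ℚ (Z.X.factor i).E ≤ 4 := not_lt.1 hi
      omega
    · intro i hi k hk h6
      have h1 : finrank ℚ (Z.X.factor i).E ≤ 4 := not_lt.1 hi
      omega
  · refine tate_of Z (elementary_of_large Z S (fun i hi => ⟨h.ns i hi, ?_⟩) h.closures h.smaller
      (generated_of_good Z _ h.good))
    rcases h.large i hi with h1 | ⟨⟨h1, h2⟩, h3⟩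
    · exact Or.inl h1
    · exact Or.inr ⟨h1, h3, h2⟩
  · refine tate_of Z (elementary_of_blocks Z c h.unrelated fun b => ?_)
    rcases h.blocks b with h1 | h1
    · exact generated_of_good Z _ h1
    · exact generated_of_angle Z _ h1

end Pool.Agent.Results.MP_ee618e_ag.PrimeDimensions
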