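import Mathlib
import Pool.Agent.Q70.MM.ElemMain
import Pool.Agent.TH117.BL.Main

/-!
# The Tate conjecture for abelian varieties over finite fields with several non-isogenous large factors
with the same CM field and arbitrary small factors

Over an algebraic closure of the field with `p` elements each abelian variety is isogenous to the
reduction of an abelian variety of CM type (Honda, Tate). So an abelian variety over the field with
`p ^ a` elements is modelled by `RedAV`: a finite product of CM types `(E i, Φ i)` with Weil numbers
`π i ∈ E i` that satisfy the formula of Shimura and Taniyama; its cohomology of degree `n`, with
coefficients in an algebraically closed field `Ω`, consists of the alternating `n`-forms on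
`Ω ⊗ H_1`, on which the Frobenius endomorphism acts by `π`. We fix an isomorphism `ν` of the algebraic
closure of `ℚ_p` with `ℂ`; it defines a `p`-adic valuation of `ℂ`, with the value one at `p`.

Let `Z` be an abelian variety of this kind. We consider large factors of `Z` (`LargeFactors`): factors
`(c, l)`, `l` in a finite set `J c`, with the CM field `K c`. There may be several of them with **the
same field**, with different CM types and Weil numbers. We suppose that the functions `n` on the
complex embeddings of `K c` with `n (conj φ) = - n φ` are an absolutely irreducible representation
of the automorphisms of `ℂ` (`OddAbsolutelyIrreducible`: the generic case, it is true if the Galois group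
of the normal closure of `K c` consists of all permutations of the embeddings compatible with the
complex conjugation, or if only some automorphism exchanges one embedding with its complex conjugate
and fixes all the others) and that there are no equivariant maps between these functions for `K c` and
`K c'`, `c ≠ c'` (`Unrelated`). The other factors of `Z` (`rest`) are arbitrary abelian varieties whose
CM fields have smaller degree than all `K c` or are unrelated to them; they form a good set
(`IsGoodSet`): the sum of their dimensions is at most five (and no two of them are an exceptional pair), or
they have dimension at most three, and those with equal Galois closures are isogenous, unless the CM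
fields are Galois over `ℚ` or one of the two factors is supersingular. (So these factors may be
arbitrary elliptic curves, or an arbitrary simple abelian variety of dimension at most five.)

**Theorem.** (1) If for each `c` the slopes of the Frobenius endomorphisms of the factors `(c, l)`,
`l` in `J c`, as functions on the embeddings of `K c` into the algebraic closure of `ℚ_p`, minus
`1 / 2`, are linearly independent over `ℚ` (`IndependentSlopes`), then the Tate conjecture is true
for all abelian varieties `Y` which are isogenous, over the algebraic closure, to products of
powers of the factors of `Z` and of supersingular ones (`IsPowersTimesSupersingular`), in all
degrees `2 m`: all Tate classes over finite extensions of the ground field are in `Alg Ω Y`. (2) This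
is the case if the large factors are ordinary, at most three of them have the same field, and the
slopes of two with the same field are neither equal nor opposite (`OrdinaryTriples`; for ordinary
abelian varieties this means that they are not isogenous over the algebraic closure).

The classes in `Alg Ω Y` are algebraic: it is the span of the classes that are obtained from classes
of divisors and from the split Weil classes of degree four and six of the liftings (Markman; only needed
for the factors in the good set) by cup products, pull-backs and push-forwards.

For example, let `K` be a CM field of degree `2 g` with `2 ^ g g!` automorphisms of the normal closure,
and `A`, `B`, `C` three abelian varieties of dimension `g ≥ 6` over finite fields, ordinary, with complex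
multiplication by `K`, and `D` an arbitrary simple abelian variety of dimension at most five: then the
Tate conjecture is true for all products of powers of `A`, `B`, `C` and `D`. The number three cannot be
replaced by four: if `g = 3` and `p` splits completely in `K` there are four ordinary abelian varieties
of dimension three, with a linear relation between their slopes.

Relation to the starting files: `AllCMFields`, `AlmostAllSlopeTypes`, `OrdinaryIndependentBlocks`,
`IndependentDiscriminants` of this folder treat one large factor for each field (and supersingular
factors), `ElementaryRelations` reduces the conjecture to multiplicative relations (and is used
here), `SurfacesAndDimensionFive` and `WeilClassesGenerate` treat small factors only. The theorem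
`ThreeTypesPerField` of helper70 (MP_950c68_ag) is the analogous conditional statement for products
with arbitrary smooth projective varieties `Z` (equivalence of the conjecture for `A × Z` and for `Z`, for
Weil cohomologies with algebraically closed coefficients). Published: Lenstra and Zarhin, Zarhin,
Dupuy, Kedlaya and Zureick-Brown treat the powers of a single simple abelian variety, or products with
pairwise independent fields.

The proof. A multiplicative relation between the conjugates of all Frobenius eigenvalues gives a
relation between the conjugates of the slope functions. Summing its scalar products with the slope
functions over the Galois group, by Schur's lemma, one obtains that for each single embedding `x` of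
`K c` there is a linear relation between the slope functions of the factors `(c, l)`, `l` in `J c`,
with coefficients the exponents at `x` minus those at `conj x`. So the exponents are symmetric at the
large factors, and the relation is a product of trivial relations and of one for the small factors.
-/

set_option autoImplicit false

namespace Pool.Agent.Results.MP_ee618e_ag.SeveralTypesPerField

open NumberField Module Pool.Agent.TH117.BL Pool.Agent.W495.TA Pool.Agent.W547.KB
  Pool.Agent.Q70.SQ Pool.Agent.Q70.MM

/-- The Tate conjecture for all abelian varieties `Y` which are products of powers of the factors of `Z`
and of supersingular abelian varieties: all Tate classes over finite extensions are in `Alg Ω Y`. -/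
def TateForProducts {p : ℕ} [Fact p.Prime] {ν : PadicAlgCl p ≃+* ℂ} (Z : RedAV p ν) : Prop :=
  ∀ (Ω : Type) [Field Ω] [CharZero Ω] [IsAlgClosed Ω] (Y : RedAV p ν),
    IsPowersTimesSupersingular Z Y →
    ∀ (s m : ℕ) (f : (TM Ω Y) [⋀^Fin (2 * m)]→ₗ[Ω] Ω), 0 < s → IsTateClass Ω Y s m f →
      Alg Ω Y (Fin (2 * m)) f

/-- **The Tate conjecture for the abelian varieties over finite fields that are products of powers of
large factors, several of which may have the same (generic) CM field, with linearly independent
slopes (first part), for instance at most three ordinary ones (second part), of small factors, and of
supersingular ones.** -/
theorem result :
    (∀ (p : ℕ) [Fact p.Prime] (ν : PadicAlgCl p ≃+* ℂ) (Z : RedAV p ν) (D : LargeFactors Z),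
      IsGoodSet Z D.rest → IndependentSlopes p Z.a D.frob → TateForProducts Z) ∧
    (∀ (p : ℕ) [Fact p.Prime] (ν : PadicAlgCl p ≃+* ℂ) (Z : RedAV p ν) (D : LargeFactors Z),
      IsGoodSet Z D.rest → D.OrdinaryTriples → TateForProducts Z) := by
  have hgen : ∀ (p : ℕ) [Fact p.Prime] (ν : PadicAlgCl p ≃+* ℂ) (Z : RedAV p ν)
      (D : LargeFactors Z), IsGoodSet Z D.rest → IndependentSlopes p Z.a D.frob →
      TateForProducts Z := by
    intro p _ ν Z D hgood hind Ω _ _ _ Y hY s m f hs hf
    exact elementary Z (elementary_of_large D hind hgood) Ω Y hY s m hs f hf
  exact ⟨hgen, fun p _ ν Z D hgood h => hgen p ν Z D hgood (independent_of_triples D h)⟩

end Pool.Agent.Results.MP_ee618e_ag.SeveralTypesPerField
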